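import Pool.Agent.helper84.VD.SpecB2

set_option autoImplicit false

open scoped ContDiff Topology InnerProductSpace ENNReal
open MeasureTheory Filter Set

namespace Pool.Agent.VD

noncomputable section

/-- mean value inequality -/
theorem SIM_mvt {A B : Type} [NormedAddCommGroup A] [NormedSpace ℝ A] [NormedAddCommGroup B] [NormedSpace ℝ B]
    {M r : ℝ} {a0 : A} {f : A → B} (hf : C11 M r a0 f) (a b : A) (ha : ‖a - a0‖ ≤ r) (hb : ‖b - a0‖ ≤ r) :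
    ‖f a - f b‖ ≤ M * ‖a - b‖ := by
  have hconv : Convex ℝ (Metric.closedBall a0 r) := convex_closedBall a0 r
  refine hconv.norm_image_sub_le_of_norm_fderiv_le (𝕜 := ℝ) (fun x hx => hf.dif x ?_) (fun x hx => hf.bd x ?_) ?_ ?_
  · rwa [Metric.mem_closedBall, dist_eq_norm] at hx
  · rwa [Metric.mem_closedBall, dist_eq_norm] at hx
  · rwa [Metric.mem_closedBall, dist_eq_norm]
  · rwa [Metric.mem_closedBall, dist_eq_norm]

/-- monotonicity in `t` -/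
theorem SIM_mono {A : Type} [NormedAddCommGroup A] [NormedSpace ℝ A] (g : ℝ × A → ℝ) (t0 ρ c : ℝ) (a : A)
    (hd : ∀ t, |t - t0| ≤ ρ → DifferentiableAt ℝ g (t, a)) (hc : ∀ t, |t - t0| ≤ ρ → c ≤ fderiv ℝ g (t, a) (1, 0))
    (s t : ℝ) (hs : |s - t0| ≤ ρ) (ht : |t - t0| ≤ ρ) (hst : s ≤ t) : c * (t - s) ≤ g (t, a) - g (s, a) := by
  have hD : ∀ t, |t - t0| ≤ ρ → HasDerivAt (fun t => g (t, a)) (fderiv ℝ g (t, a) (1, 0)) t := by
    intro t ht
    exact (hd t ht).hasFDerivAt.comp_hasDerivAt t ((hasDerivAt_id t).prodMk (hasDerivAt_const t a))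
  have hI : ∀ x ∈ Set.Icc (t0 - ρ) (t0 + ρ), |x - t0| ≤ ρ := by
    intro x hx
    rw [abs_le]
    constructor
    · linarith [hx.1]
    · linarith [hx.2]
  have h := Convex.mul_sub_le_image_sub_of_le_deriv (convex_Icc (t0 - ρ) (t0 + ρ)) (f := fun t => g (t, a)) (C := c)
    (fun x hx => (hD x (hI x hx)).continuousAt.continuousWithinAt)
    (fun x hx => (hD x (hI x (interior_subset hx))).differentiableAt.differentiableWithinAt)
    (fun x hx => by rw [(hD x (hI x (interior_subset hx))).deriv]; exact hc x (hI x (interior_subset hx)))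
  rw [abs_le] at hs ht
  exact h s ⟨by linarith [hs.1], by linarith [hs.2]⟩ t ⟨by linarith [ht.1], by linarith [ht.2]⟩ hst

theorem SIM_sep {A : Type} [NormedAddCommGroup A] [NormedSpace ℝ A] (g : ℝ × A → ℝ) (t0 ρ c : ℝ) (a : A) 
    (hd : ∀ t, |t - t0| ≤ ρ → DifferentiableAt ℝ g (t, a)) (hc : ∀ t, |t - t0| ≤ ρ → c ≤ fderiv ℝ g (t, a) (1, 0))
    (s t : ℝ) (hs : |s - t0| ≤ ρ) (ht : |t - t0| ≤ ρ) : c * |t - s| ≤ |g (t, a) - g (s, a)| := by
  rcases le_total s t with h | h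
  · rw [abs_of_nonneg (sub_nonneg.mpr h)]
    exact (SIM_mono g t0 ρ c a hd hc s t hs ht h).trans (le_abs_self _)
  · rw [abs_sub_comm t s, abs_of_nonneg (sub_nonneg.mpr h), abs_sub_comm]
    exact (SIM_mono g t0 ρ c a hd hc t s ht hs h).trans (le_abs_self _)

theorem SIM_proof : SIM_stmt := by
  intro M r hM hr
  have hM0 : 0 < M := by linarith
  obtain ⟨ρ, hρ⟩ : ∃ ρ, ρ = min r (1 / (2 * M ^ 2)) := ⟨_, rfl⟩
  have hρ0 : 0 < ρ := by
    rw [hρ]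
    exact lt_min hr (by positivity)
  have hρr : ρ ≤ r := by rw [hρ]; exact min_le_left _ _
  have hρM : ρ ≤ 1 / (2 * M ^ 2) := by rw [hρ]; exact min_le_right _ _
  have hMρ : M * ρ ≤ 1 / (2 * M) := by
    calc M * ρ ≤ M * (1 / (2 * M ^ 2)) := mul_le_mul_of_nonneg_left hρM hM0.le
      _ = 1 / (2 * M) := by field_simp
  obtain ⟨r', hr'⟩ : ∃ r', r' = ρ / (16 * M ^ 2) := ⟨_, rfl⟩
  have hr'0 : 0 < r' := by rw [hr']; positivity
  have hr'M : 16 * M ^ 2 * r' = ρ := by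
    rw [hr']
    field_simp
  have hM2 : 1 ≤ M ^ 2 := by nlinarith
  have h2r : 2 * r' ≤ ρ := by nlinarith
  have hr'r : r' ≤ r := by linarith
  refine ⟨12 * M ^ 6, r', ρ, ?_, hr'0, hr'r, hρ0, hρr, ?_⟩
  · have : 1 ≤ M ^ 6 := one_le_pow₀ hM
    linarith
  intro A _ _ g t0 a0 hg hp hg0
  have hq : ∀ (t : ℝ) (a : A), |t - t0| ≤ ρ → ‖a - a0‖ ≤ 2 * r' → ‖((t, a) : ℝ × A) - (t0, a0)‖ ≤ ρ := by
    intro t a ht ha
    rw [Prod.mk_sub_mk, Prod.norm_mk, Real.norm_eq_abs]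
    exact max_le ht (ha.trans h2r)
  have hd : ∀ a, ‖a - a0‖ ≤ 2 * r' → ∀ t, |t - t0| ≤ ρ → DifferentiableAt ℝ g (t, a) := fun a ha t ht =>
    hg.dif _ ((hq t a ht ha).trans hρr)
  have h10 : ‖((1 : ℝ), (0 : A))‖ = 1 := by
    rw [Prod.norm_mk]
    simp
  have hpd : ∀ (q q' : ℝ × A), ‖q - (t0, a0)‖ ≤ r → ‖q' - (t0, a0)‖ ≤ r →
      |fderiv ℝ g q (1, 0) - fderiv ℝ g q' (1, 0)| ≤ M * ‖q - q'‖ := by
    intro q q' h1 h2
    have h3 := (fderiv ℝ g q - fderiv ℝ g q').le_opNorm ((1 : ℝ), (0 : A))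
    rw [h10, mul_one, Real.norm_eq_abs] at h3
    exact h3.trans (hg.lip q q' h1 h2)
  have hc : ∀ a, ‖a - a0‖ ≤ 2 * r' → ∀ t, |t - t0| ≤ ρ → 1 / (2 * M) ≤ fderiv ℝ g (t, a) (1, 0) := by
    intro a ha t ht
    have h1 := hpd (t, a) (t0, a0) ((hq t a ht ha).trans hρr) (by rw [sub_self, norm_zero]; exact hr.le)
    have h2 : M * ‖((t, a) : ℝ × A) - (t0, a0)‖ ≤ M * ρ := mul_le_mul_of_nonneg_left (hq t a ht ha) hM0.le
    have h3 := (abs_le.mp (h1.trans (h2.trans hMρ))).1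
    have h4 : 1 / M = 1 / (2 * M) + 1 / (2 * M) := by field_simp; norm_num
    linarith
  have hgt0 : ∀ a, ‖a - a0‖ ≤ 2 * r' → |g (t0, a)| ≤ (1 + 2 * M) * r' := by
    intro a ha
    have h1 := SIM_mvt hg (t0, a) (t0, a0) ((hq t0 a (by rw [sub_self, abs_zero]; exact hρ0.le) ha).trans hρr)
      (by rw [sub_self, norm_zero]; exact hr.le)
    rw [Prod.mk_sub_mk, Prod.norm_mk, sub_self, norm_zero, max_eq_right (norm_nonneg _), Real.norm_eq_abs] at h1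
    have h2 : |g (t0, a)| ≤ |g (t0, a) - g (t0, a0)| + |g (t0, a0)| := by
      have := abs_add_le (g (t0, a) - g (t0, a0)) (g (t0, a0))
      rwa [sub_add_cancel] at this
    have h3 : M * ‖a - a0‖ ≤ M * (2 * r') := mul_le_mul_of_nonneg_left ha hM0.le
    linarith
  have hsmall : (1 + 2 * M) * r' ≤ 1 / (2 * M) * (ρ / 2) := by
    have h1 : 1 / (2 * M) * (ρ / 2) = 4 * M * r' := by
      rw [← hr'M]
      field_simp
      ring
    rw [h1]
    nlinarith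
  have hex : ∀ a, ‖a - a0‖ ≤ 2 * r' → ∃ t, |t - t0| ≤ ρ ∧ g (t, a) = 0 := by
    intro a ha
    have h0 : |t0 - t0| ≤ ρ := by rw [sub_self, abs_zero]; exact hρ0.le
    have hp1 : |t0 + ρ - t0| ≤ ρ := by rw [add_sub_cancel_left, abs_of_pos hρ0]
    have hm1 : |t0 - ρ - t0| ≤ ρ := by rw [sub_sub_cancel_left, abs_neg, abs_of_pos hρ0]
    have h1 := SIM_mono g t0 ρ _ a (hd a ha) (hc a ha) t0 (t0 + ρ) h0 hp1 (by linarith)
    have h2 := SIM_mono g t0 ρ _ a (hd a ha) (hc a ha) (t0 - ρ) t0 hm1 h0 (by linarith)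
    have h3 := abs_le.mp ((hgt0 a ha).trans hsmall)
    have h4 : 0 < 1 / (2 * M) * ρ := by positivity
    have h5 : 1 / (2 * M) * (t0 + ρ - t0) = 1 / (2 * M) * ρ := by ring
    have h6 : 1 / (2 * M) * (t0 - (t0 - ρ)) = 1 / (2 * M) * ρ := by ring
    have h7 : 1 / (2 * M) * (ρ / 2) = 1 / (2 * M) * ρ / 2 := by ring
    rw [h5] at h1
    rw [h6] at h2
    rw [h7] at h3
    have hcont : ContinuousOn (fun t => g (t, a)) (Set.Icc (t0 - ρ) (t0 + ρ)) := by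
      intro x hx
      have hx' : |x - t0| ≤ ρ := abs_le.mpr ⟨by linarith [hx.1], by linarith [hx.2]⟩
      have := (hd a ha x hx').continuousAt.comp (f := fun t : ℝ => (t, a)) (x := x) (by fun_prop)
      exact this.continuousWithinAt
    have hIVT := intermediate_value_Icc (by linarith : t0 - ρ ≤ t0 + ρ) hcont
    obtain ⟨t, ht, ht2⟩ := hIVT (show (0 : ℝ) ∈ Set.Icc (g (t0 - ρ, a)) (g (t0 + ρ, a)) from
      ⟨by linarith [h3.2], by linarith [h3.1]⟩)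
    exact ⟨t, abs_le.mpr ⟨by linarith [ht.1], by linarith [ht.2]⟩, ht2⟩
  have hex2 : ∀ a, ∃ t, ‖a - a0‖ ≤ 2 * r' → (|t - t0| ≤ ρ ∧ g (t, a) = 0) := by
    intro a
    by_cases ha : ‖a - a0‖ ≤ 2 * r'
    · obtain ⟨t, ht⟩ := hex a ha
      exact ⟨t, fun _ => ht⟩
    · exact ⟨t0, fun h => absurd h ha⟩
  choose τ hτ using hex2
  have hsep : ∀ a, ‖a - a0‖ ≤ 2 * r' → ∀ s t, |s - t0| ≤ ρ → |t - t0| ≤ ρ → |t - s| ≤ 2 * M * |g (t, a) - g (s, a)| := by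
    intro a ha s t hs ht
    have h1 := SIM_sep g t0 ρ _ a (hd a ha) (hc a ha) s t hs ht
    have h2 := mul_le_mul_of_nonneg_left h1 (by positivity : 0 ≤ 2 * M)
    have h3 : 2 * M * (1 / (2 * M) * |t - s|) = |t - s| := by field_simp
    rwa [h3] at h2
  have ht00 : |t0 - t0| ≤ ρ := by rw [sub_self, abs_zero]; exact hρ0.le
  have hτ1 : ∀ a, ‖a - a0‖ ≤ 2 * r' → |τ a - t0| ≤ 2 * M * |g (t0, a)| := by
    intro a ha
    have h1 := hsep a ha t0 (τ a) ht00 (hτ a ha).1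
    rwa [(hτ a ha).2, zero_sub, abs_neg] at h1
  have hlip : ∀ a b, ‖a - a0‖ ≤ 2 * r' → ‖b - a0‖ ≤ 2 * r' → |τ a - τ b| ≤ 2 * M ^ 2 * ‖a - b‖ := by
    intro a b ha hb
    have h1 := hsep b hb (τ b) (τ a) (hτ b hb).1 (hτ a ha).1
    rw [(hτ b hb).2, sub_zero] at h1
    have h2 := SIM_mvt hg (τ a, b) (τ a, a) ((hq _ b (hτ a ha).1 hb).trans hρr) ((hq _ a (hτ a ha).1 ha).trans hρr)
    rw [(hτ a ha).2, sub_zero, Prod.mk_sub_mk, Prod.norm_mk, sub_self, norm_zero, max_eq_right (norm_nonneg _),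
      Real.norm_eq_abs, norm_sub_rev] at h2
    calc |τ a - τ b| ≤ 2 * M * |g (τ a, b)| := h1
      _ ≤ 2 * M * (M * ‖a - b‖) := mul_le_mul_of_nonneg_left h2 (by positivity)
      _ = 2 * M ^ 2 * ‖a - b‖ := by ring
  -- the derivative
  let N : A → (A →L[ℝ] ℝ) := fun a => (fderiv ℝ g (τ a, a)).comp (ContinuousLinearMap.inr ℝ ℝ A)
  let pp : A → ℝ := fun a => fderiv ℝ g (τ a, a) (1, 0)
  have hppdef : ∀ a, pp a = fderiv ℝ g (τ a, a) (1, 0) := fun a => rfl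
  have hNdef : ∀ a v, N a v = fderiv ℝ g (τ a, a) (0, v) := fun a v => rfl
  have hpp : ∀ a, ‖a - a0‖ ≤ 2 * r' → 1 / (2 * M) ≤ pp a := fun a ha => hc a ha _ (hτ a ha).1
  have hpp0 : ∀ a, ‖a - a0‖ ≤ 2 * r' → 0 < pp a := fun a ha => lt_of_lt_of_le (by positivity) (hpp a ha)
  have hinv : ∀ a, ‖a - a0‖ ≤ 2 * r' → (pp a)⁻¹ ≤ 2 * M := by
    intro a ha
    have h1 := inv_anti₀ (by positivity) (hpp a ha)
    rwa [one_div, inv_inv] at h1
  have hmemr : ∀ a, ‖a - a0‖ ≤ 2 * r' → ‖((τ a, a) : ℝ × A) - (t0, a0)‖ ≤ r := fun a ha =>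
    (hq _ a (hτ a ha).1 ha).trans hρr
  have hderiv : ∀ a, ‖a - a0‖ < 2 * r' → HasFDerivAt τ (-((pp a)⁻¹ • N a)) a := by
    intro a ha
    have hnear : ∀ᶠ b in 𝓝 a, ‖b - a0‖ ≤ 2 * r' := by
      have h1 : ContinuousAt (fun b : A => ‖b - a0‖) a := by fun_prop
      filter_upwards [h1.eventually (gt_mem_nhds ha)] with b hb
      exact le_of_lt hb
    have hO : (fun b => ((τ b, b) : ℝ × A) - (τ a, a)) =O[𝓝 a] (fun b => b - a) := by
      refine Asymptotics.IsBigO.of_bound (2 * M ^ 2) ?_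
      filter_upwards [hnear] with b hb
      rw [Prod.mk_sub_mk, Prod.norm_mk, Real.norm_eq_abs]
      refine max_le (hlip b a hb ha.le) ?_
      have := norm_nonneg (b - a)
      nlinarith
    have htend : Tendsto (fun b => ((τ b, b) : ℝ × A)) (𝓝 a) (𝓝 (τ a, a)) := by
      rw [tendsto_iff_norm_sub_tendsto_zero]
      have h1 : Tendsto (fun b => b - a) (𝓝 a) (𝓝 0) := by
        have : ContinuousAt (fun b : A => b - a) a := by fun_prop
        have h := this.tendsto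
        rwa [sub_self] at h
      exact (hO.trans_tendsto h1).norm.trans (by rw [norm_zero])
    have hgd := (hasFDerivAt_iff_isLittleO.mp (hg.dif _ (hmemr a ha.le)).hasFDerivAt)
    have h1 := (hgd.comp_tendsto htend).trans_isBigO hO
    rw [hasFDerivAt_iff_isLittleO]
    have h2 := h1.const_mul_left (pp a)⁻¹
    refine (h2.neg_left).congr' ?_ (Filter.EventuallyEq.refl _ _)
    filter_upwards [hnear] with b hb
    have e1 : ((τ b, b) : ℝ × A) - (τ a, a) = (τ b - τ a) • ((1 : ℝ), (0 : A)) + ((0 : ℝ), b - a) := by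
      rw [Prod.mk_sub_mk, Prod.smul_mk, Prod.mk_add_mk, smul_zero, smul_eq_mul, mul_one, add_zero, zero_add]
    have e2 : fderiv ℝ g (τ a, a) (((τ b, b) : ℝ × A) - (τ a, a)) = (τ b - τ a) * pp a + N a (b - a) := by
      rw [e1, map_add, map_smul, smul_eq_mul]
      rfl
    simp only [Function.comp_apply, (hτ b hb).2, (hτ a ha.le).2, e2, sub_self, zero_sub,
      ContinuousLinearMap.neg_apply, ContinuousLinearMap.smul_apply, smul_eq_mul]
    have h3 := (hpp0 a ha.le).ne'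
    field_simp
    ring
  have hlt : ∀ a, ‖a - a0‖ ≤ r' → ‖a - a0‖ < 2 * r' := fun a ha => by linarith
  have hfd : ∀ a, ‖a - a0‖ ≤ r' → fderiv ℝ τ a = -((pp a)⁻¹ • N a) := fun a ha => (hderiv a (hlt a ha)).fderiv
  have hinr : ‖ContinuousLinearMap.inr ℝ ℝ A‖ ≤ 1 := by
    refine ContinuousLinearMap.opNorm_le_bound _ zero_le_one fun v => ?_
    rw [ContinuousLinearMap.inr_apply, Prod.norm_mk, norm_zero, max_eq_right (norm_nonneg _), one_mul]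
  have hNb : ∀ a, ‖a - a0‖ ≤ 2 * r' → ‖N a‖ ≤ M := by
    intro a ha
    calc ‖N a‖ ≤ ‖fderiv ℝ g (τ a, a)‖ * ‖ContinuousLinearMap.inr ℝ ℝ A‖ := ContinuousLinearMap.opNorm_comp_le _ _
      _ ≤ M * 1 := mul_le_mul (hg.bd _ (hmemr a ha)) hinr (norm_nonneg _) hM0.le
      _ = M := mul_one M
  have hqq : ∀ a b, ‖a - a0‖ ≤ 2 * r' → ‖b - a0‖ ≤ 2 * r' → ‖((τ a, a) : ℝ × A) - (τ b, b)‖ ≤ 2 * M ^ 2 * ‖a - b‖ := by
    intro a b ha hb
    rw [Prod.mk_sub_mk, Prod.norm_mk, Real.norm_eq_abs]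
    refine max_le (hlip a b ha hb) ?_
    have := norm_nonneg (a - b)
    nlinarith
  have hNl : ∀ a b, ‖a - a0‖ ≤ 2 * r' → ‖b - a0‖ ≤ 2 * r' → ‖N a - N b‖ ≤ 2 * M ^ 3 * ‖a - b‖ := by
    intro a b ha hb
    have e : N a - N b = (fderiv ℝ g (τ a, a) - fderiv ℝ g (τ b, b)).comp (ContinuousLinearMap.inr ℝ ℝ A) := by
      rw [ContinuousLinearMap.sub_comp]
    calc ‖N a - N b‖ ≤ ‖fderiv ℝ g (τ a, a) - fderiv ℝ g (τ b, b)‖ * ‖ContinuousLinearMap.inr ℝ ℝ A‖ := by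
          rw [e]; exact ContinuousLinearMap.opNorm_comp_le _ _
      _ ≤ (M * (2 * M ^ 2 * ‖a - b‖)) * 1 := by
          refine mul_le_mul ?_ hinr (norm_nonneg _) (by positivity)
          exact (hg.lip _ _ (hmemr a ha) (hmemr b hb)).trans (mul_le_mul_of_nonneg_left (hqq a b ha hb) hM0.le)
      _ = 2 * M ^ 3 * ‖a - b‖ := by ring
  have hpl : ∀ a b, ‖a - a0‖ ≤ 2 * r' → ‖b - a0‖ ≤ 2 * r' → |pp a - pp b| ≤ 2 * M ^ 3 * ‖a - b‖ := by
    intro a b ha hb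
    calc |pp a - pp b| ≤ M * ‖((τ a, a) : ℝ × A) - (τ b, b)‖ := hpd _ _ (hmemr a ha) (hmemr b hb)
      _ ≤ M * (2 * M ^ 2 * ‖a - b‖) := mul_le_mul_of_nonneg_left (hqq a b ha hb) hM0.le
      _ = 2 * M ^ 3 * ‖a - b‖ := by ring
  have hr2 : ∀ a, ‖a - a0‖ ≤ r' → ‖a - a0‖ ≤ 2 * r' := fun a ha => by linarith
  have hpow : M ^ 2 ≤ M ^ 6 := pow_le_pow_right₀ hM (by norm_num)
  have hpow1 : M ≤ M ^ 6 := by
    calc M = M ^ 1 := (pow_one M).symm
      _ ≤ M ^ 6 := pow_le_pow_right₀ hM (by norm_num)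
  have hpow4 : M ^ 4 ≤ M ^ 6 := pow_le_pow_right₀ hM (by norm_num)
  refine ⟨τ, ⟨fun a ha => (hderiv a (hlt a ha)).differentiableAt, ?_, ?_⟩, ?_⟩
  · intro a ha
    rw [hfd a ha, norm_neg, norm_smul, norm_inv, Real.norm_eq_abs, abs_of_pos (hpp0 a (hr2 a ha))]
    calc (pp a)⁻¹ * ‖N a‖ ≤ (2 * M) * M := mul_le_mul (hinv a (hr2 a ha)) (hNb a (hr2 a ha)) (norm_nonneg _) (by positivity)
      _ = 2 * M ^ 2 := by ring
      _ ≤ 12 * M ^ 6 := by nlinarith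
  · intro a b ha hb
    rw [hfd a ha, hfd b hb]
    have e : -((pp a)⁻¹ • N a) - -((pp b)⁻¹ • N b) = ((pp b)⁻¹ - (pp a)⁻¹) • N a - (pp b)⁻¹ • (N a - N b) := by
      module
    have h1 : |(pp b)⁻¹ - (pp a)⁻¹| ≤ (2 * M) * (2 * M) * (2 * M ^ 3 * ‖a - b‖) := by
      have e1 : (pp b)⁻¹ - (pp a)⁻¹ = (pp a)⁻¹ * (pp b)⁻¹ * (pp a - pp b) := by
        have h3 := (hpp0 a (hr2 a ha)).ne'
        have h4 := (hpp0 b (hr2 b hb)).ne'
        field_simp
      rw [e1, abs_mul, abs_mul, abs_of_pos (inv_pos.mpr (hpp0 a (hr2 a ha))), abs_of_pos (inv_pos.mpr (hpp0 b (hr2 b hb)))]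
      exact mul_le_mul (mul_le_mul (hinv a (hr2 a ha)) (hinv b (hr2 b hb)) (inv_pos.mpr (hpp0 b (hr2 b hb))).le (by positivity))
        (hpl a b (hr2 a ha) (hr2 b hb)) (abs_nonneg _) (by positivity)
    rw [e]
    calc ‖((pp b)⁻¹ - (pp a)⁻¹) • N a - (pp b)⁻¹ • (N a - N b)‖
        ≤ ‖((pp b)⁻¹ - (pp a)⁻¹) • N a‖ + ‖(pp b)⁻¹ • (N a - N b)‖ := norm_sub_le _ _
      _ ≤ (2 * M) * (2 * M) * (2 * M ^ 3 * ‖a - b‖) * M + (2 * M) * (2 * M ^ 3 * ‖a - b‖) := by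
          refine add_le_add ?_ ?_
          · rw [norm_smul, Real.norm_eq_abs]
            exact mul_le_mul h1 (hNb a (hr2 a ha)) (norm_nonneg _) (by positivity)
          · rw [norm_smul, norm_inv, Real.norm_eq_abs, abs_of_pos (hpp0 b (hr2 b hb))]
            exact mul_le_mul (hinv b (hr2 b hb)) (hNl a b (hr2 a ha) (hr2 b hb)) (norm_nonneg _) (by positivity)
      _ = (8 * M ^ 6 + 4 * M ^ 4) * ‖a - b‖ := by ring
      _ ≤ 12 * M ^ 6 * ‖a - b‖ := mul_le_mul_of_nonneg_right (by linarith) (norm_nonneg _)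
  · intro a ha
    have ha2 := hr2 a ha
    refine ⟨(hτ a ha2).1, (hτ a ha2).2, ?_, ?_⟩
    · refine (hτ1 a ha2).trans (mul_le_mul_of_nonneg_right ?_ (abs_nonneg _))
      linarith
    · intro t ht hgt
      have h1 := hsep a ha2 (τ a) t (hτ a ha2).1 ht
      rw [hgt, (hτ a ha2).2, sub_zero, abs_zero, mul_zero] at h1
      exact sub_eq_zero.mp (abs_eq_zero.mp (le_antisymm h1 (abs_nonneg _)))

end

end Pool.Agent.VD
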