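import Pool.Agent.helper93.VD.SpecB4a

set_option autoImplicit false

open MeasureTheory Filter Set Topology
open scoped ENNReal

namespace Pool.Agent.VDL

open Pool.Agent.VDE (BB av)
open Pool.Agent.VD (W Z)

noncomputable section

theorem LCN_cont {S : Type} [TopologicalSpace S] {f : ℝ → S → S} (hf : Continuous (fun p : ℝ × S => f p.1 p.2))
    {h : S → ℝ} (hh : Continuous h) (x : S) : Continuous (fun t => h (f t x)) := by
  have h1 : Continuous (fun t : ℝ => ((t, x) : ℝ × S)) := by fun_prop
  exact hh.comp (hf.comp h1)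

theorem LCN_bd {S : Type} [TopologicalSpace S] {f : ℝ → S → S} {h : S → ℝ} (hb : ∀ x, |h x| ≤ 1) (x : S) (a b : ℝ)
    (hab : a ≤ b) : |∫ t in a..b, h (f t x)| ≤ b - a := by
  have h1 := intervalIntegral.norm_integral_le_of_norm_le_const (a := a) (b := b) (C := 1) (f := fun t => h (f t x))
    (fun t _ => by rw [Real.norm_eq_abs]; exact hb _)
  rwa [Real.norm_eq_abs, one_mul, abs_of_nonneg (sub_nonneg.mpr hab)] at h1

theorem LCN_proof : LCN_stmt := by
  intro S _ _ μ d f ε C hV h M e T0 he hT hc hb hM
  have hcont := fun x => LCN_cont hV.fcn hc x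
  have hint : ∀ x a b, IntervalIntegrable (fun t => h (f t x)) volume a b := fun x a b =>
    (hcont x).intervalIntegrable a b
  refine ⟨?_, ?_⟩
  · have hav : ∀ x, |av f h T0 x - M| ≤ 2 := by
      intro x
      have h1 : |av f h T0 x| ≤ 1 := by
        unfold av
        rw [abs_mul, abs_inv, abs_of_pos hT]
        have h2 := LCN_bd (f := f) hb x 0 T0 hT.le
        rw [sub_zero] at h2
        calc T0⁻¹ * |∫ t in (0 : ℝ)..T0, h (f t x)| ≤ T0⁻¹ * T0 := mul_le_mul_of_nonneg_left h2 (inv_nonneg.mpr hT.le)
          _ = 1 := inv_mul_cancel₀ hT.ne'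
      have h3 := abs_sub (av f h T0 x) M
      linarith
    have key : ∀ (n : ℕ) (x : S), |(∫ t in (0 : ℝ)..(n * T0), h (f t x)) - n * T0 * M| ≤ T0 * (2 * nb f h M e T0 n x + n * e / 2) := by
      intro n
      induction n with
      | zero =>
        intro x
        simp [nb]
      | succ n ih =>
        intro x
        have e1 : (∫ t in (0 : ℝ)..((n + 1 : ℕ) * T0), h (f t x)) = (∫ t in (0 : ℝ)..T0, h (f t x)) +
            ∫ t in (0 : ℝ)..(n * T0), h (f t (f T0 x)) := by
          rw [← intervalIntegral.integral_add_adjacent_intervals (hint x 0 T0) (hint x T0 _)]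
          congr 1
          have e2 : ∀ t, h (f t (f T0 x)) = (fun s => h (f s x)) (t + T0) := by
            intro t
            show h (f t (f T0 x)) = h (f (t + T0) x)
            rw [hV.fa]
          rw [intervalIntegral.integral_congr (fun t _ => e2 t),
            intervalIntegral.integral_comp_add_right (fun s => h (f s x)) T0]
          congr 1
          · ring
          · push_cast
            ring
        have e3 : (∫ t in (0 : ℝ)..T0, h (f t x)) = T0 * av f h T0 x := by
          unfold av
          rw [← mul_assoc, mul_inv_cancel₀ hT.ne', one_mul]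
        have e4 : (T0 * av f h T0 x + (∫ t in (0 : ℝ)..(n * T0), h (f t (f T0 x)))) - ((n + 1 : ℕ) : ℝ) * T0 * M =
            T0 * (av f h T0 x - M) + ((∫ t in (0 : ℝ)..(n * T0), h (f t (f T0 x))) - n * T0 * M) := by
          push_cast
          ring
        rw [e1, e3, e4]
        refine (abs_add_le _ _).trans ?_
        have h1 := ih (f T0 x)
        have h2 : |T0 * (av f h T0 x - M)| ≤ T0 * (2 * (if e / 2 ≤ |av f h T0 x - M| then 1 else 0 : ℕ) + e / 2) := by
          rw [abs_mul, abs_of_pos hT]
          refine mul_le_mul_of_nonneg_left ?_ hT.le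
          by_cases hbad : e / 2 ≤ |av f h T0 x - M|
          · rw [if_pos hbad]
            have := hav x
            push_cast
            linarith
          · rw [if_neg hbad]
            push_cast
            linarith
        have e5 : ((nb f h M e T0 (n + 1) x : ℕ) : ℝ) = ((if e / 2 ≤ |av f h T0 x - M| then 1 else 0 : ℕ) : ℝ) + nb f h M e T0 n (f T0 x) := by
          rw [nb]
          push_cast
          rfl
        rw [e5]
        push_cast at h2 ⊢
        linarith
    intro n x hn hbig
    have hn0 : (0 : ℝ) < n := by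
      have : 0 < n := hn
      exact_mod_cast this
    have h1 := key n x
    have h2 : (∫ t in (0 : ℝ)..(n * T0), h (f t x)) - n * T0 * M = n * T0 * (av f h (n * T0) x - M) := by
      unfold av
      have h3 : (n * T0 : ℝ) ≠ 0 := by positivity
      field_simp
    rw [h2, abs_mul, abs_of_pos (by positivity : (0 : ℝ) < n * T0)] at h1
    have h3 : n * T0 * e ≤ n * T0 * |av f h (n * T0) x - M| := mul_le_mul_of_nonneg_left hbig (by positivity)
    have h4 : T0 * (n * e) ≤ T0 * (2 * nb f h M e T0 n x + n * e / 2) := by linarith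
    have h5 := le_of_mul_le_mul_left h4 hT
    linarith
  · intro T T' x hT' hTT
    have hT0 : 0 < T := by linarith
    have e1 : av f h T x - av f h T' x = (T⁻¹ - T'⁻¹) * (∫ t in (0 : ℝ)..T', h (f t x)) + T⁻¹ * ∫ t in T'..T, h (f t x) := by
      unfold av
      rw [← intervalIntegral.integral_add_adjacent_intervals (hint x 0 T') (hint x T' T)]
      ring
    have h1 := LCN_bd (f := f) hb x 0 T' hT'.le
    have h2 := LCN_bd (f := f) hb x T' T hTT
    rw [sub_zero] at h1
    have h3 : T⁻¹ ≤ T'⁻¹ := inv_anti₀ hT' hTT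
    have h4 : |T⁻¹ - T'⁻¹| = T'⁻¹ - T⁻¹ := by
      rw [abs_of_nonpos (by linarith)]
      ring
    rw [e1]
    refine (abs_add_le _ _).trans ?_
    rw [abs_mul, abs_mul, h4, abs_inv, abs_of_pos hT0]
    have h5 : (T'⁻¹ - T⁻¹) * |∫ t in (0 : ℝ)..T', h (f t x)| ≤ (T'⁻¹ - T⁻¹) * T' :=
      mul_le_mul_of_nonneg_left h1 (by linarith)
    have h6 : T⁻¹ * |∫ t in T'..T, h (f t x)| ≤ T⁻¹ * (T - T') :=
      mul_le_mul_of_nonneg_left h2 (inv_nonneg.mpr hT0.le)
    have h7 : (T'⁻¹ - T⁻¹) * T' + T⁻¹ * (T - T') = 2 * (T - T') / T := by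
      field_simp
      ring
    linarith

end

end Pool.Agent.VDL
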