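import Pool.Agent.helper93.VD.SpecB4b

set_option autoImplicit false

open MeasureTheory Filter Set Topology
open scoped ENNReal

namespace Pool.Agent.VDL

open Pool.Agent.VDE (BB av FlD UWLD mnV avV liou FDX)
open Pool.Agent.VD (W Z V P nrm lft dens FdK)
open Pool.Agent.VDG (muS)

noncomputable section

/-- uniform continuity near a compact set -/
theorem LWK_uc {X : Type} [NormedAddCommGroup X] (K : Set X) (hK : IsCompact K) (h : X → ℝ) (hh : Continuous h) (η : ℝ) (hη : 0 < η) :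
    ∃ δ : ℝ, 0 < δ ∧ ∀ x ∈ K, ∀ y, ‖x - y‖ < δ → |h x - h y| < η := by
  have h1 := hK.uniformContinuousAt_of_continuousAt h (fun a _ => hh.continuousAt) (Metric.dist_mem_uniformity hη)
  obtain ⟨δ, hδ, h2⟩ := Metric.mem_uniformity_dist.mp h1
  refine ⟨δ, hδ, fun x hx y hy => ?_⟩
  have h3 := h2 (a := x) (b := y) (by rw [dist_eq_norm]; exact hy) hx
  exact h3

theorem LWK_mn {d : ℕ} (F0 : Set (V d)) (hF : MeasurableSet F0) (G : V d → V d →L[ℝ] V d) (h : V d → ℝ) (h01 : ∀ x, 0 ≤ h x ∧ h x ≤ 1) :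
    |mnV F0 G h| ≤ 1 := by
  have hd : ∀ x, 0 ≤ dens G x := fun x => Real.sqrt_nonneg _
  unfold mnV
  have h1 : 0 ≤ ∫ x in F0, h x * dens G x := setIntegral_nonneg hF (fun x _ => mul_nonneg (h01 x).1 (hd x))
  have h2 : 0 ≤ ∫ x in F0, dens G x := setIntegral_nonneg hF (fun x _ => hd x)
  rw [abs_of_nonneg (div_nonneg h1 h2)]
  by_cases hi : IntegrableOn (dens G) F0
  · apply div_le_one_of_le₀ _ h2
    refine integral_mono_of_nonneg (Eventually.of_forall fun x => mul_nonneg (h01 x).1 (hd x)) hi (Eventually.of_forall fun x => ?_)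
    show h x * dens G x ≤ dens G x
    exact mul_le_of_le_one_left (hd x) (h01 x).2
  · have h3 : (∫ x in F0, dens G x) = 0 := integral_undef hi
    rw [h3, div_zero]
    exact zero_le_one

theorem LWK_proof (hLLW : LLW_stmt) (hSNM : VDE.SNM_stmt) (_hSLF : VDE.SLF_stmt) : LWK_stmt := by
  intro d Γ _ _ K C h e hd hh hinv h01 he
  obtain ⟨n0, hn0, hL⟩ := hLLW d Γ K C hd
  by_cases hK : IsCompact K
  swap
  · refine ⟨1, 1, one_pos, le_rfl, fun F0 G Φ dd hF => ?_⟩
    exact absurd hF.fdk.compact hK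
  obtain ⟨δ, hδ, huc⟩ := LWK_uc K hK h hh (e / 16) (by positivity)
  have hC : 0 < |C| + 1 := by positivity
  refine ⟨min (1 / 200) (δ / (32 * (|C| + 1))), n0, by positivity, hn0, ?_⟩
  intro F0 G Φ dd hF f hf ε T0 v0 hε hε1 hT0 hv0 hW
  obtain ⟨hnc, -, -, -, -⟩ := hSNM d G hF.met
  have he200 : ε ≤ 1 / 200 := hε1.trans (min_le_left _ _)
  have heδ : 32 * (|C| + 1) * ε ≤ δ := by
    have h1 : ε ≤ δ / (32 * (|C| + 1)) := hε1.trans (min_le_right _ _)
    rw [le_div_iff₀ (by positivity)] at h1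
    linarith
  have hn0' : (0 : ℝ) < n0 := by
    have : 0 < n0 := hn0
    exact_mod_cast this
  have hlft1 : ∀ (γ : Γ) (p : P d), (lft γ p).1 = γ • p.1 := fun γ p => rfl
  have hav : ∀ y : VDG.Shl G, av f (fun x => h x.1.1) T0 y = avV Φ h T0 y.1 := by
    intro y
    unfold av avV
    simp only [hf]
  have hcav : Continuous (avV Φ h T0) := by
    unfold avV
    refine continuous_const.mul ?_
    refine intervalIntegral.continuous_parametric_intervalIntegral_of_continuous' (f := fun (p : P d) (s : ℝ) => h (Φ s p).1) ?_ 0 T0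
    have h1 : Continuous (fun q : ℝ × P d => Φ q.1 q.2) := hF.flow.smooth.continuous
    have h2 : Continuous (fun q : P d × ℝ => ((q.2, q.1) : ℝ × P d)) := by fun_prop
    exact hh.comp (continuous_fst.comp (h1.comp h2))
  refine ⟨he, hT0, by positivity, ?_, ?_, ?_, ?_, ?_⟩
  · exact hh.comp (continuous_fst.comp continuous_subtype_val)
  · intro x
    rw [abs_of_nonneg (h01 _).1]
    exact (h01 _).2
  · exact LWK_mn F0 hF.fdx.meas G h h01
  · intro x y hxy
    obtain ⟨γ, hγ⟩ := hF.fdk.cover x.1.1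
    have h1 : dd (lft γ x.1) (lft γ y.1) ≤ 16 * ε := by rw [hF.dis.inv]; exact hxy
    have h2 := hF.dis.lo (lft γ x.1) (lft γ y.1) hγ (by rw [hF.ln, x.2]; norm_num) (by rw [hF.ln, y.2]; norm_num) (by linarith)
    have h3 : ‖γ • x.1.1 - γ • y.1.1‖ ≤ ‖lft γ x.1 - lft γ y.1‖ := by
      have := norm_fst_le (lft γ x.1 - lft γ y.1)
      exact this
    have h4 : C * dd (lft γ x.1) (lft γ y.1) ≤ (|C| + 1) * (16 * ε) := by
      have h5 : 0 ≤ dd (lft γ x.1) (lft γ y.1) := hF.dis.nn _ _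
      calc C * dd (lft γ x.1) (lft γ y.1) ≤ (|C| + 1) * dd (lft γ x.1) (lft γ y.1) :=
            mul_le_mul_of_nonneg_right (by have := le_abs_self C; linarith) h5
        _ ≤ (|C| + 1) * (16 * ε) := mul_le_mul_of_nonneg_left h1 hC.le
    have h5 : ‖γ • x.1.1 - γ • y.1.1‖ < δ := by
      have h6 : 0 < (|C| + 1) * (16 * ε) := by positivity
      linarith
    have h6 := huc _ hγ _ h5
    rw [hinv, hinv] at h6
    exact h6.le
  · intro x
    have hms : MeasurableSet {p : P d | nrm G p = 1} := (isClosed_eq hnc continuous_const).measurableSet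
    have hemb : MeasurableEmbedding (Subtype.val : VDG.Shl G → P d) := MeasurableEmbedding.subtype_coe hms
    unfold muS
    rw [hemb.comap_apply]
    obtain ⟨A, hA⟩ : ∃ A : Set (P d), A = {p | e / 8 ≤ |avV Φ h T0 p - mnV F0 G h|} := ⟨_, rfl⟩
    have hAm : MeasurableSet A := by
      rw [hA]
      exact (isClosed_le continuous_const (hcav.sub continuous_const).abs).measurableSet
    have hAinv : ∀ (γ : Γ) (p : P d), p ∈ A ↔ lft γ p ∈ A := by
      intro γ p
      have h1 : avV Φ h T0 (lft γ p) = avV Φ h T0 p := by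
        unfold avV
        simp only [hF.fe, hlft1, hinv]
      rw [hA, mem_setOf_eq, mem_setOf_eq, h1]
    have hsub : (Subtype.val : VDG.Shl G → P d) '' {y | dd x.1 y.1 ≤ 16 * ε ∧ e / 8 ≤ |av f (fun x => h x.1.1) T0 y - mnV F0 G h|} ⊆
        {y | nrm G y = 1 ∧ dd x.1 y ≤ 1 / 8} ∩ A := by
      rintro _ ⟨y, ⟨hy1, hy2⟩, rfl⟩
      rw [hav] at hy2
      refine ⟨⟨y.2, by linarith⟩, ?_⟩
      rw [hA]
      exact hy2
    have hfin : {p : P d | p.1 ∈ F0} ∩ A = {p : P d | p.1 ∈ F0 ∧ e / 8 ≤ |avV Φ h T0 p - mnV F0 G h|} := by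
      rw [hA]
      rfl
    calc liou G ((Subtype.val : VDG.Shl G → P d) '' {y | dd x.1 y.1 ≤ 16 * ε ∧ e / 8 ≤ |av f (fun x => h x.1.1) T0 y - mnV F0 G h|})
        ≤ liou G ({y | nrm G y = 1 ∧ dd x.1 y ≤ 1 / 8} ∩ A) := measure_mono hsub
      _ ≤ n0 * liou G ({p : P d | p.1 ∈ F0} ∩ A) := hL F0 G Φ dd hF x.1 A x.2 hAm hAinv
      _ ≤ n0 * ENNReal.ofReal v0 := by
          rw [hfin]
          exact mul_le_mul_right hW _
      _ = ENNReal.ofReal (n0 * v0) := by
          rw [ENNReal.ofReal_mul hn0'.le, ENNReal.ofReal_natCast]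

end

end Pool.Agent.VDL
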